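import Pool.Agent.H66AS.Mem

/-!
# Arc-disjoint antistrong and strong spanning subdigraphs: NP-completeness
-/

set_option autoImplicit false

namespace Pool.Agent.Results.MP_c99d13_lc.AntistrongStrongNPC

open Pool.Agent.NPC Pool.Agent.H66AS

/-- To decide whether a digraph has two arc-disjoint spanning subdigraphs, one antistrong and the
other strongly connected, is `NP`-complete; every language in `NP` even reduces to it by a
polynomial-time function all of whose values are digraphs in which all but four vertices have
in-degree two. -/
theorem result : InNPP AntistrongStrong ∧ NPHardP AntistrongStrong ∧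
    ∀ L : Set (List Bool), InNP L → ∃ f : List Bool → DG,
      PolyTime (fun x => bits (f x)) ∧ (∀ x, IsDigraph (f x) ∧ InTwo (f x)) ∧
      ∀ x, x ∈ L ↔ AntistrongStrong (f x) := by
  refine ⟨inNPP, hardPr.toHardI.toNPHardP, fun L hL => ?_⟩
  obtain ⟨f, hf, hpr, hfL⟩ := hardPr L hL
  exact ⟨f, PC.toPolyTime hf, hpr, hfL⟩

end Pool.Agent.Results.MP_c99d13_lc.AntistrongStrongNPC
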